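import Mathlib

/-!
The inequality `b(k₁, k₂) ≤ b(k₂) + 1` for regular type B sequences fails: `b(51, 61) = 10`
and `b(61) = 8`.
-/

set_option autoImplicit false

namespace Pool.Agent.Results.MP_8dcfbf_co.PairFiftyOneSixtyOne

/-- `x` is the sum of a block of one or more consecutive terms of `d`. -/
def IsBlockSum (d : List ℕ) (x : ℕ) : Prop := ∃ c : List ℕ, c ≠ [] ∧ c <:+: d ∧ c.sum = x

/-- Regular type B sequences: `(1)` is one; `(1,1)` is the start, and at each step a term whose
value is the sum of a block of one or more consecutive terms is attached at the left or at the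
right end. -/
inductive RegularB : List ℕ → Prop
  | single : RegularB [1]
  | start : RegularB [1, 1]
  | left {d : List ℕ} {x : ℕ} : RegularB d → 2 ≤ d.length → IsBlockSum d x → RegularB (x :: d)
  | right {d : List ℕ} {x : ℕ} : RegularB d → 2 ≤ d.length → IsBlockSum d x → RegularB (d ++ [x])

/-- `b(k)`: the least length of a regular type B sequence with a term equal to `k`. -/
noncomputable def b (k : ℕ) : ℕ :=
  sInf {n | ∃ d : List ℕ, RegularB d ∧ d.length = n ∧ ∃ p : ℕ, d[p]? = some k}

/-- `b(k₁, k₂)`: the least length of a regular type B sequence with `k₁` and `k₂` at two distinct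
positions. -/
noncomputable def b₂ (k₁ k₂ : ℕ) : ℕ :=
  sInf {n | ∃ d : List ℕ, RegularB d ∧ d.length = n ∧
    ∃ p q : ℕ, p ≠ q ∧ d[p]? = some k₁ ∧ d[q]? = some k₂}

/-- Sums of nonempty initial blocks. -/
def psums : List ℕ → List ℕ
  | [] => []
  | a :: l => a :: (psums l).map (fun x => a + x)

/-- Sums of nonempty blocks. -/
def bsums : List ℕ → List ℕ
  | [] => []
  | a :: l => psums (a :: l) ++ bsums l

theorem mem_psums {c d : List ℕ} (h : c <+: d) (hc : c ≠ []) : c.sum ∈ psums d := by
  induction d generalizing c with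
  | nil => exact absurd (List.prefix_nil.1 h) hc
  | cons a l ih =>
    cases c with
    | nil => exact absurd rfl hc
    | cons x c =>
      rw [List.cons_prefix_cons] at h
      obtain ⟨rfl, h⟩ := h
      rcases eq_or_ne c [] with h0 | h0
      · subst h0
        simp [psums]
      · have := ih h h0
        simp only [psums, List.mem_cons, List.mem_map]
        right
        exact ⟨_, this, by simp⟩

theorem mem_bsums {c d : List ℕ} (h : c <:+: d) (hc : c ≠ []) : c.sum ∈ bsums d := by
  induction d with
  | nil => exact absurd (List.infix_nil.1 h) hc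
  | cons a l ih =>
    rw [List.infix_cons_iff] at h
    rcases h with h | h
    · exact List.mem_append_left _ (mem_psums h hc)
    · exact List.mem_append_right _ (ih h)

theorem IsBlockSum.mem {d : List ℕ} {x : ℕ} (h : IsBlockSum d x) : x ∈ bsums d := by
  obtain ⟨c, h1, h2, rfl⟩ := h
  exact mem_bsums h2 h1

theorem IsBlockSum.le {d : List ℕ} {x : ℕ} (h : IsBlockSum d x) : x ≤ d.sum := by
  obtain ⟨c, h1, ⟨s, t, rfl⟩, rfl⟩ := h
  simp only [List.sum_append]
  omega

theorem RegularB.length_pos {d : List ℕ} (h : RegularB d) : 1 ≤ d.length := by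
  cases h <;> simp

theorem RegularB.sum_le {d : List ℕ} (h : RegularB d) : d.sum ≤ 2 ^ (d.length - 1) := by
  induction h with
  | single => decide
  | start => decide
  | @left d x h hl hx ih =>
    have h1 := hx.le
    have h2 : (x :: d).length - 1 = (d.length - 1) + 1 := by simp; omega
    rw [h2, pow_succ, List.sum_cons]
    omega
  | @right d x h hl hx ih =>
    have h1 := hx.le
    have h2 : (d ++ [x]).length - 1 = (d.length - 1) + 1 := by simp; omega
    rw [h2, pow_succ, List.sum_append, List.sum_singleton]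
    omega

theorem RegularB.elt_le {d : List ℕ} (h : RegularB d) {y : ℕ} (hy : y ∈ d) :
    y ≤ 2 ^ (d.length - 2) := by
  induction h with
  | single => simp at hy; subst hy; decide
  | start => simp at hy; subst hy; decide
  | @left d x h hl hx ih =>
    have h1 := hx.le.trans h.sum_le
    have h2 : (x :: d).length - 2 = d.length - 1 := by simp
    rw [h2]
    rcases List.mem_cons.1 hy with rfl | hy
    · exact h1
    · exact (ih hy).trans (Nat.pow_le_pow_right (by norm_num) (by omega))
  | @right d x h hl hx ih =>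
    have h1 := hx.le.trans h.sum_le
    have h2 : (d ++ [x]).length - 2 = d.length - 1 := by simp
    rw [h2]
    rcases List.mem_append.1 hy with hy | hy
    · exact (ih hy).trans (Nat.pow_le_pow_right (by norm_num) (by omega))
    · rw [List.mem_singleton] at hy
      subst hy
      exact h1

/-- A regular sequence with at least three terms comes from one with one term less. -/
theorem RegularB.cases_of {D : List ℕ} (h : RegularB D) (hD : 3 ≤ D.length) :
    ∃ E x, RegularB E ∧ E.length + 1 = D.length ∧ IsBlockSum E x ∧ (D = x :: E ∨ D = E ++ [x]) := by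
  cases h with
  | single => simp at hD
  | start => simp at hD
  | @left d x h hl hx => exact ⟨d, x, h, rfl, hx, Or.inl rfl⟩
  | @right d x h hl hx => exact ⟨d, x, h, by simp, hx, Or.inr rfl⟩

/-- One step of the enumeration of the sequences with large sum. -/
def step (lo : ℕ) (L : List (List ℕ)) : List (List ℕ) :=
  (L.flatMap (fun d => (bsums d).flatMap (fun x => [x :: d, d ++ [x]]))).filter
    (fun d => lo ≤ d.sum)

theorem step_complete {n lo lo' : ℕ} {L : List (List ℕ)} (hn : 2 ≤ n) (hlo : 2 * lo ≤ lo' + 1)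
    (hL : ∀ d, RegularB d → d.length = n → lo ≤ d.sum → d ∈ L) (D : List ℕ) (hD : RegularB D)
    (hlen : D.length = n + 1) (hsum : lo' ≤ D.sum) : D ∈ step lo' L := by
  obtain ⟨E, x, hE, hl, hx, hDE⟩ := hD.cases_of (by omega)
  have h1 := hx.le
  have h2 : D.sum = E.sum + x := by
    rcases hDE with rfl | rfl
    · simp [add_comm]
    · simp
  have h3 := hL E hE (by omega) (by omega)
  simp only [step, List.mem_filter, List.mem_flatMap]
  refine ⟨⟨E, h3, x, hx.mem, ?_⟩, by simpa using hsum⟩
  rcases hDE with rfl | rfl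
  · simp
  · simp

/-- The enumeration. -/
def E7 : List (List ℕ) := step 51 (step 26 (step 13 (step 7 (step 4 [[1, 1]]))))

theorem E7_complete (D : List ℕ) (hD : RegularB D) (hlen : D.length = 7) (hsum : 51 ≤ D.sum) :
    D ∈ E7 := by
  have h2 : ∀ d, RegularB d → d.length = 2 → 2 ≤ d.sum → d ∈ [[1, 1]] := by
    intro d hd hl _
    cases hd with
    | single => simp at hl
    | start => simp
    | left h h1 _ => simp at hl; omega
    | right h h1 _ => simp at hl; omega
  have h3 := fun d => step_complete (lo' := 4) (by norm_num) (by norm_num) h2 d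
  have h4 := fun d => step_complete (lo' := 7) (by norm_num) (by norm_num) h3 d
  have h5 := fun d => step_complete (lo' := 13) (by norm_num) (by norm_num) h4 d
  have h6 := fun d => step_complete (lo' := 26) (by norm_num) (by norm_num) h5 d
  exact step_complete (lo' := 51) (by norm_num) (by norm_num) h6 D hD hlen hsum

theorem E7_check : ∀ d ∈ E7, 51 ∈ bsums d →
    61 ∉ bsums d ∧ 10 ∉ psums d ∧ 10 ∉ psums d.reverse := by
  decide +kernel

theorem check (E : List ℕ) (hE : RegularB E) (hlen : E.length = 7) (h51 : IsBlockSum E 51) :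
    61 ∉ bsums E ∧ 10 ∉ psums E ∧ 10 ∉ psums E.reverse :=
  E7_check E (E7_complete E hE hlen h51.le) h51.mem

theorem no_nine (D : List ℕ) (hD : RegularB D) (hlen : D.length ≤ 9) (h1 : 51 ∈ D)
    (h2 : 61 ∈ D) : False := by
  -- short sequences have small terms
  have small : ∀ E : List ℕ, RegularB E → E.length ≤ 7 → ∀ y ∈ E, y ≤ 32 := by
    intro E hE hl y hy
    exact (hE.elt_le hy).trans
      ((Nat.pow_le_pow_right (by norm_num) (by omega : E.length - 2 ≤ 5)).trans (by norm_num))
  have hl8 : 8 ≤ D.length := by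
    by_contra hc
    have := small D hD (by omega) 51 h1
    omega
  obtain ⟨F, y, hF, hlF, hy, hDF⟩ := hD.cases_of (by omega)
  have mD : ∀ z, z ∈ D → z = y ∨ z ∈ F := by
    intro z hz
    rcases hDF with rfl | rfl
    · exact List.mem_cons.1 hz
    · rcases List.mem_append.1 hz with hz | hz
      · exact Or.inr hz
      · exact Or.inl (List.mem_singleton.1 hz)
  have hlF8 : F.length = 8 := by
    by_contra hc
    have hs := small F hF (by omega)
    rcases mD 51 h1 with h3 | h3
    · rcases mD 61 h2 with h4 | h4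
      · omega
      · have := hs 61 h4
        omega
    · have := hs 51 h3
      omega
  obtain ⟨E, x, hE, hlE, hx, hFE⟩ := hF.cases_of (by omega)
  have hlE7 : E.length = 7 := by omega
  have hs := small E hE (by omega)
  have mF : ∀ z, z ∈ F → z = x ∨ z ∈ E := by
    intro z hz
    rcases hFE with rfl | rfl
    · exact List.mem_cons.1 hz
    · rcases List.mem_append.1 hz with hz | hz
      · exact Or.inr hz
      · exact Or.inl (List.mem_singleton.1 hz)
  have mm : ∀ z, 32 < z → z ∈ D → z = y ∨ z = x := by
    intro z hz hzD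
    rcases mD z hzD with h3 | h3
    · exact Or.inl h3
    · rcases mF z h3 with h4 | h4
      · exact Or.inr h4
      · have := hs z h4
        omega
  rcases mm 51 (by norm_num) h1 with h3 | h3 <;> rcases mm 61 (by norm_num) h2 with h4 | h4
  · omega
  · -- `y = 51`, `x = 61`
    subst h3
    subst h4
    obtain ⟨c, hc0, hc1, hc2⟩ := hy
    have hcE : c <:+: E := by
      rcases hFE with rfl | rfl
      · rw [List.infix_cons_iff] at hc1
        rcases hc1 with h5 | h5
        · cases c with
          | nil => exact absurd rfl hc0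
          | cons a c =>
            rw [List.cons_prefix_cons] at h5
            rw [List.sum_cons, h5.1] at hc2
            omega
        · exact h5
      · rw [List.infix_concat_iff] at hc1
        rcases hc1 with h5 | h5
        · rw [List.suffix_concat_iff] at h5
          rcases h5 with h5 | ⟨t, rfl, h6⟩
          · exact absurd h5 hc0
          · rw [List.sum_append, List.sum_singleton] at hc2
            omega
        · exact h5
    have := (check E hE hlE7 ⟨c, hc0, hcE, hc2⟩).1
    exact this hx.mem
  · -- `y = 61`, `x = 51`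
    subst h3
    subst h4
    obtain ⟨k1, k2, k3⟩ := check E hE hlE7 hx
    obtain ⟨c, hc0, hc1, hc2⟩ := hy
    rcases hFE with rfl | rfl
    · rw [List.infix_cons_iff] at hc1
      rcases hc1 with h5 | h5
      · cases c with
        | nil => exact absurd rfl hc0
        | cons a c =>
          rw [List.cons_prefix_cons] at h5
          rw [List.sum_cons, h5.1] at hc2
          have h6 : c.sum = 10 := by omega
          have h7 : c ≠ [] := by rintro rfl; simp at h6
          apply k2
          rw [← h6]
          exact mem_psums h5.2 h7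
      · apply k1
        rw [← hc2]
        exact mem_bsums h5 hc0
    · rw [List.infix_concat_iff] at hc1
      rcases hc1 with h5 | h5
      · rw [List.suffix_concat_iff] at h5
        rcases h5 with h5 | ⟨t, rfl, h6⟩
        · exact absurd h5 hc0
        · rw [List.sum_append, List.sum_singleton] at hc2
          have h7 : t.sum = 10 := by omega
          have h8 : t ≠ [] := by rintro rfl; simp at h7
          apply k3
          rw [← h7, ← List.sum_reverse]
          exact mem_psums (List.reverse_prefix.2 h6) (by simpa using h8)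
      · apply k1
        rw [← hc2]
        exact mem_bsums h5 hc0
  · omega

theorem reg_right {d : List ℕ} (x : ℕ) (h : RegularB d) (hl : 2 ≤ d.length) (s c t : List ℕ)
    (hc : c ≠ []) (hd : s ++ c ++ t = d) (hx : c.sum = x) : RegularB (d ++ [x]) :=
  RegularB.right h hl ⟨c, hc, ⟨s, t, hd⟩, hx⟩

theorem reg5 : RegularB [1, 1, 2, 4] :=
  reg_right 4 (reg_right 2 RegularB.start (by simp) [] [1, 1] [] (by simp) rfl rfl) (by simp)
    [] [1, 1, 2] [] (by simp) rfl rfl

theorem reg_eight : RegularB [1, 1, 2, 4, 8, 15, 30, 61] :=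
  reg_right 61 (reg_right 30 (reg_right 15 (reg_right 8 reg5 (by simp) [] [1, 1, 2, 4] []
    (by simp) rfl rfl) (by simp) [1] [1, 2, 4, 8] [] (by simp) rfl rfl) (by simp)
    [1] [1, 2, 4, 8, 15] [] (by simp) rfl rfl) (by simp) [] [1, 1, 2, 4, 8, 15, 30] []
    (by simp) rfl rfl

theorem reg_ten : RegularB [1, 1, 2, 4, 6, 12, 25, 51, 10, 61] :=
  reg_right 61 (reg_right 10 (reg_right 51 (reg_right 25 (reg_right 12 (reg_right 6 reg5 (by simp)
    [1, 1] [2, 4] [] (by simp) rfl rfl) (by simp) [1, 1] [2, 4, 6] [] (by simp) rfl rfl) (by simp)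
    [1] [1, 2, 4, 6, 12] [] (by simp) rfl rfl) (by simp) [] [1, 1, 2, 4, 6, 12, 25] []
    (by simp) rfl rfl) (by simp) [1, 1, 2] [4, 6] [12, 25, 51] (by simp) rfl rfl) (by simp)
    [1, 1, 2, 4, 6, 12, 25] [51, 10] [] (by simp) rfl rfl

theorem b_eq : b 61 = 8 := by
  have h1 : 8 ∈ {n | ∃ d : List ℕ, RegularB d ∧ d.length = n ∧ ∃ p : ℕ, d[p]? = some 61} :=
    ⟨_, reg_eight, rfl, 7, rfl⟩
  apply le_antisymm (Nat.sInf_le h1)
  obtain ⟨d, h2, h3, p, h4⟩ := Nat.sInf_mem (Set.nonempty_of_mem h1)
  have h5 := h2.elt_le (List.mem_of_getElem? h4)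
  rw [← h3]
  by_contra hc
  have h7 : 2 ^ (d.length - 2) ≤ 2 ^ 5 := Nat.pow_le_pow_right (by norm_num) (by omega)
  omega

theorem b₂_eq : b₂ 51 61 = 10 := by
  have h1 : 10 ∈ {n | ∃ d : List ℕ, RegularB d ∧ d.length = n ∧
      ∃ p q : ℕ, p ≠ q ∧ d[p]? = some 51 ∧ d[q]? = some 61} :=
    ⟨_, reg_ten, rfl, 7, 9, by norm_num, rfl, rfl⟩
  apply le_antisymm (Nat.sInf_le h1)
  obtain ⟨d, h2, h3, p, q, _, h4, h5⟩ := Nat.sInf_mem (Set.nonempty_of_mem h1)
  rw [← h3]
  by_contra hc
  exact no_nine d h2 (by omega) (List.mem_of_getElem? h4) (List.mem_of_getElem? h5)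

/-- `b(61) = 8` and `b(51, 61) = 10`, so `b(k₁, k₂) ≤ b(k₂) + 1` fails for `k₁ = 51`, `k₂ = 61`. -/
theorem result : b 61 = 8 ∧ b₂ 51 61 = 10 ∧
    ¬ ∀ k₁ k₂ : ℕ, 1 ≤ k₁ → k₁ ≤ k₂ → b₂ k₁ k₂ ≤ b k₂ + 1 := by
  refine ⟨b_eq, b₂_eq, fun h => ?_⟩
  have := h 51 61 (by norm_num) (by norm_num)
  rw [b_eq, b₂_eq] at this
  omega

end Pool.Agent.Results.MP_8dcfbf_co.PairFiftyOneSixtyOne
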